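import Pool.Agent.H8.AV3.Stmts7
import Pool.Agent.H87.AVR.ZET

/-!
# AV3C, module ZE4: finite Euler products, lower bound
-/

set_option autoImplicit false

namespace Pool.Agent.H63.AV3C

open Polynomial Pool.AVR ZET

/-- A monic polynomial is `mon` of its coefficients. -/
theorem eq_mon {F : Type} [Field F] (g : F[X]) (hg : g.Monic) :
    mon g.natDegree (fun i => g.coeff i) = g := by
  conv_rhs => rw [hg.as_sum]
  unfold mon
  congr 1
  rw [Finset.sum_range]

open Classical in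
/-- The factors of a product of prime powers. -/
theorem nf_prod {F : Type} [Field F] (S : Finset F[X]) (κ : F[X] → ℕ)
    (hm : ∀ P ∈ S, P.Monic ∧ Irreducible P) :
    UniqueFactorizationMonoid.normalizedFactors (∏ P ∈ S, P ^ κ P) =
      ∑ P ∈ S, κ P • ({P} : Multiset F[X]) := by
  induction S using Finset.induction_on with
  | empty => simp
  | insert a s ha ih =>
    have h1 := hm a (Finset.mem_insert_self a s)
    have h2 : ∀ P ∈ s, P.Monic ∧ Irreducible P := fun P hP => hm P (Finset.mem_insert_of_mem hP)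
    rw [Finset.prod_insert ha, Finset.sum_insert ha,
      UniqueFactorizationMonoid.normalizedFactors_mul (pow_ne_zero _ h1.2.ne_zero)
        (Finset.prod_ne_zero_iff.2 fun P hP => pow_ne_zero _ (h2 P hP).2.ne_zero), ih h2,
      UniqueFactorizationMonoid.normalizedFactors_pow,
      UniqueFactorizationMonoid.normalizedFactors_irreducible h1.2, h1.1.normalize_eq_self]

open Classical in
/-- The exponents of a product of prime powers. -/
theorem ex_pow {F : Type} [Field F] (S : Finset F[X]) (κ : F[X] → ℕ)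
    (hm : ∀ P ∈ S, P.Monic ∧ Irreducible P) (P : F[X]) (hP : P ∈ S) :
    ex (∏ P ∈ S, P ^ κ P) P = κ P := by
  unfold ex
  rw [nf_prod S κ hm, Multiset.count_sum', Finset.sum_eq_single P]
  · rw [Multiset.count_nsmul, Multiset.count_singleton_self, mul_one]
  · intro Q _ hQ
    rw [Multiset.count_nsmul, Multiset.count_singleton, if_neg (fun h => hQ h.symm), mul_zero]
  · intro h
    exact absurd hP h

open Classical in
/-- The upper bound for partial Euler products. -/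
theorem euler_up {F : Type} [Field F] [Fintype F] (q : ℝ) (hq : 1 < q)
    (hqF : (Fintype.card F : ℝ) = q) (e : ℕ) (he : 1 ≤ e) (K : ℕ)
    (S : Finset F[X]) (hm : ∀ P ∈ S, P.Monic ∧ Irreducible P) :
    ∏ P ∈ S, ∑ k ∈ Finset.range K, (1 / q ^ ((e + 1) * P.natDegree)) ^ k ≤
      (1 - 1 / q ^ e)⁻¹ := by
  have hq0 : 0 < q := by linarith
  let D : ℕ := ∑ P ∈ S, K * P.natDegree
  let U : Finset (S → ℕ) := Fintype.piFinset (fun _ : S => Finset.range K)
  let T : Finset ((d : ℕ) × (Fin d → F)) :=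
    (Finset.range (D + 1)).sigma (fun _ => Finset.univ)
  let E : (S → ℕ) → (F[X] → ℕ) := fun κ P => if h : P ∈ S then κ ⟨P, h⟩ else 0
  let G : (S → ℕ) → F[X] := fun κ => ∏ P ∈ S, P ^ E κ P
  let wt : (S → ℕ) → ℝ := fun κ => ∏ P : S, (1 / q ^ ((e + 1) * (P : F[X]).natDegree)) ^ κ P
  let Ψ : (S → ℕ) → ((d : ℕ) × (Fin d → F)) := fun κ =>
    ⟨(G κ).natDegree, fun i => (G κ).coeff i⟩
  let W : ((d : ℕ) × (Fin d → F)) → ℝ := fun t => (1 / q ^ (e + 1)) ^ t.1
  have hE : ∀ (κ : S → ℕ) (P : S), E κ P = κ P := by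
    intro κ P
    show (if h : (P : F[X]) ∈ S then κ ⟨P, h⟩ else 0) = κ P
    rw [dif_pos P.2]
  have hGm : ∀ κ, (G κ).Monic := by
    intro κ
    exact monic_prod_of_monic _ _ (fun P hP => (hm P hP).1.pow _)
  have hΨG : ∀ κ, mon (Ψ κ).1 (Ψ κ).2 = G κ := fun κ => eq_mon (G κ) (hGm κ)
  have hdeg : ∀ κ, (G κ).natDegree = ∑ P : S, κ P * (P : F[X]).natDegree := by
    intro κ
    show (∏ P ∈ S, P ^ E κ P).natDegree = _
    rw [natDegree_prod_of_monic _ _ (fun P hP => (hm P hP).1.pow _)]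
    rw [← Finset.sum_coe_sort S]
    apply Finset.sum_congr rfl
    intro P _
    rw [(hm P P.2).1.natDegree_pow, hE κ P]
  have hinj : Set.InjOn Ψ (U : Set (S → ℕ)) := by
    intro κ _ κ' _ h
    have h1 : G κ = G κ' := by
      rw [← hΨG κ, ← hΨG κ', h]
    funext P
    rw [← hE κ P, ← hE κ' P, ← ex_pow S (E κ) hm P P.2, ← ex_pow S (E κ') hm P P.2]
    show ex (G κ) P = ex (G κ') P
    rw [h1]
  have hwt : ∀ κ ∈ U, wt κ = W (Ψ κ) := by
    intro κ _
    show ∏ P : S, (1 / q ^ ((e + 1) * (P : F[X]).natDegree)) ^ κ P =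
      (1 / q ^ (e + 1)) ^ (G κ).natDegree
    rw [hdeg κ, ← Finset.prod_pow_eq_pow_sum]
    apply Finset.prod_congr rfl
    intro P _
    rw [pow_mul q (e + 1), ← one_div_pow, ← pow_mul, mul_comm]
  have hmem : ∀ κ ∈ U, Ψ κ ∈ T := by
    intro κ hκ
    refine Finset.mem_sigma.2 ⟨?_, Finset.mem_univ _⟩
    rw [Finset.mem_range]
    show (G κ).natDegree < D + 1
    rw [hdeg κ]
    refine Nat.lt_succ_of_le ?_
    show ∑ P : S, κ P * (P : F[X]).natDegree ≤ ∑ P ∈ S, K * P.natDegree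
    rw [← Finset.sum_coe_sort S (fun P => K * P.natDegree)]
    apply Finset.sum_le_sum
    intro P _
    have := Finset.mem_range.1 (Fintype.mem_piFinset.1 hκ P)
    exact Nat.mul_le_mul_right _ this.le
  have hprod : ∏ P ∈ S, ∑ k ∈ Finset.range K, (1 / q ^ ((e + 1) * P.natDegree)) ^ k =
      ∑ κ ∈ U, wt κ := by
    rw [← Finset.prod_coe_sort S
      (fun P => ∑ k ∈ Finset.range K, (1 / q ^ ((e + 1) * P.natDegree)) ^ k)]
    rw [Finset.prod_univ_sum]
  have hsum : ∑ t ∈ T, W t = ∑ d ∈ Finset.range (D + 1), (1 / q ^ e) ^ d := by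
    rw [Finset.sum_sigma]
    apply Finset.sum_congr rfl
    intro d _
    show ∑ _c : Fin d → F, (1 / q ^ (e + 1)) ^ d = (1 / q ^ e) ^ d
    rw [Finset.sum_const, Finset.card_univ, Fintype.card_fun, Fintype.card_fin, nsmul_eq_mul]
    push_cast
    rw [hqF, ← mul_pow]
    congr 1
    have hqe : q * q ^ e = q ^ (e + 1) := (pow_succ' q e).symm
    field_simp
    exact hqe
  have h1 : ∑ κ ∈ U, wt κ ≤ ∑ t ∈ T, W t := by
    rw [Finset.sum_congr rfl hwt, ← Finset.sum_image hinj]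
    apply Finset.sum_le_sum_of_subset_of_nonneg
    · intro t ht
      obtain ⟨κ, hκ, rfl⟩ := Finset.mem_image.1 ht
      exact hmem κ hκ
    · intro t _ _
      show 0 ≤ (1 / q ^ (e + 1)) ^ t.1
      positivity
  rw [hprod]
  refine h1.trans ?_
  rw [hsum]
  have hx0 : 0 < 1 / q ^ e := by positivity
  have hx1 : 1 / q ^ e < 1 := by
    rw [div_lt_one (by positivity)]
    exact one_lt_pow₀ hq (by omega)
  rw [geom_sum_eq hx1.ne, ← neg_div_neg_eq, inv_eq_one_div]
  rw [div_le_div_iff₀ (by linarith) (by linarith)]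
  have h4 : 0 < (1 / q ^ e) ^ (D + 1) := by positivity
  nlinarith

/-- The lower bound for the product over `S`. -/
theorem euler_low {F : Type} [Field F] [Fintype F] (q : ℝ) (hq : 1 < q)
    (hqF : (Fintype.card F : ℝ) = q) (e : ℕ) (he : 1 ≤ e)
    (S : Finset F[X]) (hm : ∀ P ∈ S, P.Monic ∧ Irreducible P) :
    1 - 1 / q ^ e ≤ ∏ P ∈ S, (1 - 1 / q ^ ((e + 1) * P.natDegree)) := by
  have hq0 : 0 < q := by linarith
  have hx : ∀ P ∈ S, 0 < 1 / q ^ ((e + 1) * P.natDegree) ∧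
      1 / q ^ ((e + 1) * P.natDegree) < 1 := by
    intro P hP
    have h3 : 1 ≤ P.natDegree := (hm P hP).2.natDegree_pos
    refine ⟨by positivity, ?_⟩
    rw [div_lt_one (by positivity)]
    exact one_lt_pow₀ hq (by positivity)
  have hx0 : 0 < 1 / q ^ e := by positivity
  have hx1 : 1 / q ^ e < 1 := by
    rw [div_lt_one (by positivity)]
    exact one_lt_pow₀ hq (by omega)
  have hlim : Filter.Tendsto
      (fun K : ℕ => ∏ P ∈ S, ∑ k ∈ Finset.range K, (1 / q ^ ((e + 1) * P.natDegree)) ^ k)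
      Filter.atTop (nhds (∏ P ∈ S, (1 - 1 / q ^ ((e + 1) * P.natDegree))⁻¹)) := by
    apply tendsto_finsetProd
    intro P hP
    exact (hasSum_geometric_of_lt_one (hx P hP).1.le (hx P hP).2).tendsto_sum_nat
  have h1 : ∏ P ∈ S, (1 - 1 / q ^ ((e + 1) * P.natDegree))⁻¹ ≤ (1 - 1 / q ^ e)⁻¹ :=
    le_of_tendsto' hlim (fun K => euler_up q hq hqF e he K S hm)
  rw [Finset.prod_inv_distrib] at h1
  have h2 : 0 < ∏ P ∈ S, (1 - 1 / q ^ ((e + 1) * P.natDegree)) :=
    Finset.prod_pos fun P hP => by linarith [(hx P hP).2]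
  exact (inv_le_inv₀ h2 (by linarith)).1 h1

theorem ze4_thm : Pool.AV3.ZE4Stmt := by
  intro F _ _ S hm
  have : Fintype F := Fintype.ofFinite F
  set q : ℝ := (Nat.card F : ℝ) with hq
  have hqF : (Fintype.card F : ℝ) = q := by rw [hq, Nat.card_eq_fintype_card]
  have hq1 : 1 < q := by
    rw [hq]
    exact_mod_cast Finite.one_lt_card
  have hq0 : 0 < q := by linarith
  have h2 := euler_low q hq1 hqF 1 le_rfl S hm
  have h3 := euler_low q hq1 hqF 2 (by norm_num) S hm
  have hpos : ∀ n : ℕ, 0 ≤ 1 - 1 / q ^ n := by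
    intro n
    have : 1 / q ^ n ≤ 1 := by
      rw [div_le_one (by positivity)]
      exact one_le_pow₀ hq1.le
    linarith
  have hρ : ∀ k : ℕ, Pool.AV3.rhoF F k = (1 - 1 / q ^ (2 * k)) * (1 - 1 / q ^ (3 * k)) := by
    intro k
    rfl
  have h5 : ∏ P ∈ S, Pool.AV3.rhoF F P.natDegree =
      (∏ P ∈ S, (1 - 1 / q ^ (2 * P.natDegree))) * ∏ P ∈ S, (1 - 1 / q ^ (3 * P.natDegree)) := by
    rw [← Finset.prod_mul_distrib]
    exact Finset.prod_congr rfl fun P _ => hρ _
  have h6 : 0 ≤ Pool.AV3.rhoF F 1 := by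
    rw [hρ]
    exact mul_nonneg (hpos _) (hpos _)
  unfold Pool.AV3.rhoS
  refine mul_le_mul_of_nonneg_right ?_ h6
  rw [h5]
  refine mul_le_mul ?_ h3 (hpos 2) (Finset.prod_nonneg fun P _ => hpos _)
  have h7 : q = q ^ 1 := (pow_one q).symm
  calc 1 - 1 / q = 1 - 1 / q ^ 1 := by rw [← h7]
    _ ≤ _ := h2

end Pool.Agent.H63.AV3C
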